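import Pool.Agent.Helper85.SV.Block
import Pool.Agent.Helper66.AF.ZM

/-!
# The lower bound sieve of Brun and Hooley

If a finite set `A` of integers has about `X / N` multiples of `N`, for all squarefree `N ≤ z ^ s₀` with prime factors in the set `P`
of primes `< z`, then at least `c X / log z` minus the sum of the errors of the elements of `A` have no prime factor in `P`.
-/

set_option autoImplicit false

namespace Pool.Agent.Helper85.SV

open Finset Filter

/-- The block number `j`: `z ^ (1 / 2 ^ (j + 1)) ≤ p < z ^ (1 / 2 ^ j)`. -/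
noncomputable def blk (P : Finset ℕ) (Z : ℝ) (j : ℕ) : Finset ℕ :=
  P.filter (fun p => 2 ^ j * Real.log p < Z ∧ Z ≤ 2 ^ (j + 1) * Real.log p)

theorem blk_disj (P : Finset ℕ) (Z : ℝ) {i j : ℕ} (h : i ≠ j) :
    Disjoint (blk P Z i) (blk P Z j) := by
  have key : ∀ i j : ℕ, i < j → ∀ p ∈ blk P Z i, p ∉ blk P Z j := by
    intro i j hij p hi hj
    obtain ⟨hp, -, h1⟩ := mem_filter.1 hi
    obtain ⟨-, h2, -⟩ := mem_filter.1 hj
    have hl : 0 ≤ Real.log p := Real.log_natCast_nonneg p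
    have h3 : (2 : ℝ) ^ (i + 1) * Real.log p ≤ 2 ^ j * Real.log p :=
      mul_le_mul_of_nonneg_right (pow_le_pow_right₀ (by norm_num) hij) hl
    linarith
  rw [disjoint_left]
  intro p hi hj
  rcases lt_or_gt_of_ne h with h' | h'
  · exact key i j h' p hi hj
  · exact key j i h' p hj hi

theorem blk_cover {P : Finset ℕ} {Z : ℝ} {r : ℕ} (hP : ∀ p ∈ P, p.Prime ∧ Real.log p < Z)
    (hr : Z ≤ 2 ^ (r + 1) * Real.log 2) : (range (r + 1)).biUnion (blk P Z) = P := by
  ext p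
  rw [mem_biUnion]
  constructor
  · rintro ⟨j, -, hj⟩
    exact (mem_filter.1 hj).1
  · intro hp
    obtain ⟨hpp, hpz⟩ := hP p hp
    have hl : Real.log 2 ≤ Real.log p := Real.log_le_log (by norm_num) (by exact_mod_cast hpp.two_le)
    have hex : ∃ j : ℕ, Z ≤ 2 ^ (j + 1) * Real.log p :=
      ⟨r, hr.trans (mul_le_mul_of_nonneg_left hl (by positivity))⟩
    classical
    refine ⟨Nat.find hex, ?_, mem_filter.2 ⟨hp, ?_, Nat.find_spec hex⟩⟩
    · rw [mem_range, Nat.lt_succ_iff]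
      exact Nat.find_min' hex (hr.trans (mul_le_mul_of_nonneg_left hl (by positivity)))
    · rcases Nat.eq_zero_or_pos (Nat.find hex) with h0 | h0
      · rw [h0, pow_zero, one_mul]
        exact hpz
      · obtain ⟨k, hk⟩ : ∃ k, Nat.find hex = k + 1 := ⟨Nat.find hex - 1, by omega⟩
        have h1 := Nat.find_min hex (show k < Nat.find hex by omega)
        rw [hk]
        exact not_le.1 h1

/-- The constant `log 4 + 4` of the upper bound of Mertens. -/
noncomputable def Ls : ℝ := 2 + 2 * (Real.log 4 + 4) / Real.log 2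

theorem Ls_pos : 0 < Ls := by
  unfold Ls
  have h1 : 0 < Real.log 2 := Real.log_pos (by norm_num)
  have h2 : 0 < Real.log 4 := Real.log_pos (by norm_num)
  positivity

theorem blk_sum_le {P : Finset ℕ} (hP : ∀ p ∈ P, p.Prime) (Z : ℝ) (j : ℕ) : ∑ p ∈ blk P Z j, (1 : ℝ) / p ≤ Ls := by
  rcases (blk P Z j).eq_empty_or_nonempty with h | ⟨p₀, hp₀⟩
  · rw [h, sum_empty]
    exact Ls_pos.le
  · have hl2 : 0 < Real.log 2 := Real.log_pos (by norm_num)
    obtain ⟨u, hu⟩ : ∃ u : ℝ, u = Z / 2 ^ (j + 1) := ⟨_, rfl⟩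
    have h2j : (0 : ℝ) < 2 ^ (j + 1) := by positivity
    have hZ : Z = 2 ^ (j + 1) * u := by rw [hu]; field_simp
    have hmem : ∀ p ∈ blk P Z j, p.Prime ∧ Real.log p < 2 * u ∧ u ≤ Real.log p := by
      intro p hp
      obtain ⟨h1, h2, h3⟩ := mem_filter.1 hp
      refine ⟨hP p h1, ?_, ?_⟩
      · rw [hZ, pow_succ, mul_assoc] at h2
        exact lt_of_mul_lt_mul_left h2 (by positivity)
      · rw [hZ] at h3
        exact le_of_mul_le_mul_left h3 h2j
    have hu0 : Real.log 2 / 2 < u := by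
      obtain ⟨h1, h2, -⟩ := hmem p₀ hp₀
      have : Real.log 2 ≤ Real.log p₀ := Real.log_le_log (by norm_num) (by exact_mod_cast h1.two_le)
      linarith
    have hup : 0 < u := by linarith
    obtain ⟨y, hy⟩ : ∃ y : ℕ, y = ⌊Real.exp (2 * u)⌋₊ := ⟨_, rfl⟩
    have hy1 : 1 ≤ y := by
      rw [hy]
      exact Nat.le_floor (by rw [Nat.cast_one]; exact Real.one_le_exp (by linarith))
    have hylog : Real.log y ≤ 2 * u := by
      rw [Real.log_le_iff_le_exp (by exact_mod_cast hy1), hy]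
      exact Nat.floor_le (Real.exp_pos _).le
    have hsub : blk P Z j ⊆ Pool.Agent.Helper5.RM.PP y := by
      intro p hp
      obtain ⟨h1, h2, -⟩ := hmem p hp
      refine mem_filter.2 ⟨mem_Icc.2 ⟨h1.one_lt.le, ?_⟩, h1⟩
      rw [hy]
      refine Nat.le_floor ?_
      have hp0 : (0 : ℝ) < p := by exact_mod_cast h1.pos
      rw [← Real.exp_log hp0]
      exact Real.exp_le_exp.2 h2.le
    have h1 : u * ∑ p ∈ blk P Z j, (1 : ℝ) / p ≤ ∑ p ∈ Pool.Agent.Helper5.RM.PP y, Real.log p / p := by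
      rw [mul_sum]
      refine (sum_le_sum fun p hp => ?_).trans (sum_le_sum_of_subset_of_nonneg hsub fun p _ _ =>
        div_nonneg (Real.log_natCast_nonneg p) (Nat.cast_nonneg p))
      rw [mul_one_div]
      exact div_le_div_of_nonneg_right (hmem p hp).2.2 (Nat.cast_nonneg p)
    have h2 := h1.trans (Pool.Agent.Helper66.AF.logp_le hy1)
    have h3 : ∑ p ∈ blk P Z j, (1 : ℝ) / p ≤ (2 * u + (Real.log 4 + 4)) / u := by
      rw [le_div_iff₀ hup]
      linarith
    refine h3.trans ?_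
    unfold Ls
    have h4 : 0 < Real.log 4 := Real.log_pos (by norm_num)
    rw [add_div, mul_div_cancel_right₀ _ hup.ne']
    have h5 : (Real.log 4 + 4) / u ≤ 2 * (Real.log 4 + 4) / Real.log 2 := by
      rw [div_le_div_iff₀ hup hl2]
      nlinarith
    linarith

private theorem log_one_sub85 {p : ℕ} (hp : p.Prime) : -(1 / (p : ℝ)) - 2 * (1 / (p : ℝ) ^ 2) ≤ Real.log (1 - 1 / p) := by
  have hp2 : (2 : ℝ) ≤ p := by exact_mod_cast hp.two_le
  have hp0 : (0 : ℝ) < p := by linarith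
  have h0 : (0 : ℝ) < 1 - 1 / p := by
    rw [sub_pos, div_lt_one hp0]
    linarith
  have h1 := Real.one_sub_inv_le_log_of_pos h0
  refine le_trans ?_ h1
  have hp1 : (0 : ℝ) < p - 1 := by linarith
  have e : 1 - (1 - 1 / (p : ℝ))⁻¹ = -(1 / (p : ℝ)) - 1 / (p * (p - 1)) := by
    have h2 : (1 - 1 / (p : ℝ)) = (p - 1) / p := by field_simp
    rw [h2]
    field_simp
    ring
  rw [e]
  have h3 : 1 / ((p : ℝ) * (p - 1)) ≤ 2 * (1 / (p : ℝ) ^ 2) := by
    rw [mul_one_div, div_le_div_iff₀ (by positivity) (by positivity)]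
    nlinarith
  linarith

theorem log_one_sub {p : ℕ} (hp : p.Prime) : -(2 * (1 / (p : ℝ))) ≤ Real.log (1 - 1 / p) := by
  have hp2 : (2 : ℝ) ≤ p := by exact_mod_cast hp.two_le
  have hp0 : (0 : ℝ) < p := by linarith
  have h1 := log_one_sub85 hp
  have h2 : 2 * (1 / (p : ℝ) ^ 2) ≤ 1 / (p : ℝ) := by
    rw [mul_one_div, div_le_div_iff₀ (by positivity) hp0]
    nlinarith
  linarith

private theorem sq_sum85 (N : ℕ) : ∑ n ∈ Icc 2 N, (1 : ℝ) / (n : ℝ) ^ 2 ≤ 1 := by
  have key : ∀ N : ℕ, 1 ≤ N → ∑ n ∈ Icc 2 N, (1 : ℝ) / (n : ℝ) ^ 2 ≤ 1 - 1 / N := by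
    intro N hN
    induction N, hN using Nat.le_induction with
    | base => simp
    | succ N hN ih =>
      rw [← Nat.succ_eq_add_one, sum_Icc_succ_top (by omega : 2 ≤ N.succ)]
      have hN0 : (0 : ℝ) < N := by exact_mod_cast hN
      have h1 : (1 : ℝ) / ((N.succ : ℕ) : ℝ) ^ 2 ≤ 1 / N - 1 / ((N.succ : ℕ) : ℝ) := by
        push_cast
        rw [div_sub_div _ _ hN0.ne' (by positivity), div_le_div_iff₀ (by positivity) (by positivity)]
        nlinarith
      linarith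
  rcases Nat.eq_zero_or_pos N with h | h
  · subst h; simp
  · have := key N h
    have h1 : (0 : ℝ) ≤ 1 / N := by positivity
    linarith

/-- The lower bound of Mertens for the product. -/
theorem prod_lower : ∃ c : ℝ, 0 < c ∧ ∀ (P : Finset ℕ) (z : ℝ), 2 ≤ z → (∀ p ∈ P, p.Prime ∧ (p : ℝ) < z) →
    c / Real.log z ≤ ∏ p ∈ P, (1 - 1 / (p : ℝ)) := by
  obtain ⟨C, hC0, hC⟩ := Pool.Agent.Helper66.AF.mertens_upper
  refine ⟨Real.exp (-C - 2) / 2, by positivity, fun P z hz hP => ?_⟩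
  have hZ : 0 < Real.log z := Real.log_pos (by linarith)
  obtain ⟨y, hy⟩ : ∃ y : ℕ, y = ⌊z⌋₊ + 1 := ⟨_, rfl⟩
  have hy3 : 3 ≤ y := by
    have : 2 ≤ ⌊z⌋₊ := Nat.le_floor (by exact_mod_cast hz)
    omega
  have hyr : (3 : ℝ) ≤ y := by exact_mod_cast hy3
  have hsub : P ⊆ Pool.Agent.Helper5.RM.PP y := by
    intro p hp
    obtain ⟨h1, h2⟩ := hP p hp
    refine mem_filter.2 ⟨mem_Icc.2 ⟨h1.one_lt.le, ?_⟩, h1⟩
    have : p ≤ ⌊z⌋₊ := Nat.le_floor h2.le
    omega
  have hylog : Real.log y ≤ 2 * Real.log z := by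
    have h1 : (y : ℝ) ≤ z + 1 := by
      rw [hy]
      push_cast
      have := Nat.floor_le (show 0 ≤ z by linarith)
      linarith
    have h2 : (y : ℝ) ≤ z ^ 2 := by nlinarith
    have h3 := Real.log_le_log (by linarith) h2
    rwa [Real.log_pow, Nat.cast_ofNat] at h3
  have hy1 : 1 ≤ Real.log y := Pool.Agent.Helper66.AF.one_le_log hy3
  have hS := hC y hy3
  have hsum1 : ∑ p ∈ P, (1 : ℝ) / p ≤ Real.log (Real.log y) + C :=
    (sum_le_sum_of_subset_of_nonneg hsub fun p _ _ => by positivity).trans hS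
  have hsum2 : ∑ p ∈ P, (1 : ℝ) / (p : ℝ) ^ 2 ≤ 1 := by
    refine (sum_le_sum_of_subset_of_nonneg (t := Icc 2 y) ?_ fun p _ _ => by positivity).trans (sq_sum85 y)
    intro p hp
    have h1 := hP p hp
    have h2 := mem_Icc.1 (mem_filter.1 (hsub hp)).1
    exact mem_Icc.2 ⟨h1.1.two_le, h2.2⟩
  have hpos : ∀ p ∈ P, (0 : ℝ) < 1 - 1 / p := by
    intro p hp
    have h1 : (1 : ℝ) < p := by exact_mod_cast (hP p hp).1.one_lt
    rw [sub_pos, div_lt_one (by linarith)]
    exact h1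
  have hprod : Real.exp (-(∑ p ∈ P, (1 : ℝ) / p) - 2 * ∑ p ∈ P, (1 : ℝ) / (p : ℝ) ^ 2) ≤ ∏ p ∈ P, (1 - 1 / (p : ℝ)) := by
    rw [← Real.exp_log (prod_pos hpos), Real.log_prod (fun p hp => (hpos p hp).ne')]
    refine Real.exp_le_exp.2 ?_
    rw [mul_sum, ← sum_neg_distrib, ← sum_sub_distrib]
    exact sum_le_sum fun p hp => log_one_sub85 (hP p hp).1
  refine le_trans ?_ hprod
  have h5 : -Real.log (Real.log y) + (-C - 2) ≤ -(∑ p ∈ P, (1 : ℝ) / p) - 2 * ∑ p ∈ P, (1 : ℝ) / (p : ℝ) ^ 2 := by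
    linarith
  refine le_trans ?_ (Real.exp_le_exp.2 h5)
  rw [Real.exp_add, Real.exp_neg, Real.exp_log (by linarith), div_div, div_eq_mul_inv, mul_comm]
  refine mul_le_mul_of_nonneg_right ?_ (Real.exp_pos _).le
  refine inv_anti₀ (by linarith) ?_
  linarith

end Pool.Agent.Helper85.SV
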