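import Pool.Agent.Helper85.SV.Main

/-!
# The lower bound sieve: the final form
-/

set_option autoImplicit false

namespace Pool.Agent.Helper85.SV

open Finset Filter

private theorem tail85 (δ : ℝ) (hδ : 0 < δ) : ∃ b₀ : ℕ, Even b₀ ∧ ∀ r : ℕ,
    ∑ j ∈ range r, Ls ^ (b₀ + 2 * j + 1) / ((b₀ + 2 * j + 1).factorial : ℝ) ≤ δ := by
  have h1 : Summable (fun n : ℕ => Ls ^ n / (n.factorial : ℝ)) := Real.summable_pow_div_factorial Ls
  obtain ⟨s, hs⟩ := summable_iff_vanishing_norm.1 h1 δ hδ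
  refine ⟨2 * (s.sup id), even_two_mul _, fun r => ?_⟩
  have h2 := hs ((range r).image (fun j => 2 * (s.sup id) + 2 * j + 1)) (by
    rw [disjoint_left]
    intro n hn hns
    obtain ⟨j, -, rfl⟩ := mem_image.1 hn
    have : 2 * (s.sup id) + 2 * j + 1 ≤ s.sup id := le_sup (f := id) hns
    omega)
  rw [sum_image (fun a _ b _ hab => by
    have : 2 * (s.sup id) + 2 * a + 1 = 2 * (s.sup id) + 2 * b + 1 := hab
    omega)] at h2
  exact (le_abs_self _).trans h2.le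

private theorem half_sum85 (r : ℕ) : ∑ j ∈ range r, (1 : ℝ) / 2 ^ j ≤ 2 := by
  have key : ∀ r : ℕ, ∑ j ∈ range r, (1 : ℝ) / 2 ^ j = 2 - 2 / 2 ^ r := by
    intro r
    induction r with
    | zero => norm_num
    | succ r ih =>
      rw [sum_range_succ, ih, pow_succ]
      field_simp
      ring
  rw [key]
  have : (0 : ℝ) < 2 / 2 ^ r := by positivity
  linarith

private theorem half_sum85' (r : ℕ) : ∑ j ∈ range r, (j : ℝ) / 2 ^ j ≤ 2 := by
  have key : ∀ r : ℕ, ∑ j ∈ range r, (j : ℝ) / 2 ^ j = 2 - (2 * r + 2) / 2 ^ r := by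
    intro r
    induction r with
    | zero => norm_num
    | succ r ih =>
      rw [sum_range_succ, ih, pow_succ]
      push_cast
      field_simp
      ring
  rw [key]
  have : (0 : ℝ) < (2 * r + 2) / 2 ^ r := by positivity
  linarith

/-- The level of the sieve. -/
private theorem level85 {P : Finset ℕ} {z : ℝ} (hz : 1 < z) (hP : ∀ p ∈ P, p.Prime ∧ (p : ℝ) < z) {r b₀ : ℕ}
    (hc : (range (r + 1)).biUnion (blk P (Real.log z)) = P) {S : Finset ℕ} (hS : S ⊆ P)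
    (hcard : ∀ j ∈ range (r + 1), (S ∩ blk P (Real.log z) j).card ≤ b₀ + 2 * j + 1) :
    ((∏ p ∈ S, p : ℕ) : ℝ) ≤ z ^ (2 * b₀ + 6) := by
  have hZ : 0 < Real.log z := Real.log_pos hz
  have hpos : ∀ p ∈ S, (0 : ℝ) < p := fun p hp => by exact_mod_cast (hP p (hS hp)).1.pos
  have h1 : Real.log (∏ p ∈ S, (p : ℝ)) ≤ (2 * b₀ + 6) * Real.log z := by
    rw [Real.log_prod fun p hp => (hpos p hp).ne']
    have e : S = (range (r + 1)).biUnion (fun j => S ∩ blk P (Real.log z) j) := by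
      rw [← inter_biUnion, hc]
      exact (inter_eq_left.2 hS).symm
    rw [e, sum_biUnion fun i _ j _ hij => (blk_disj P _ hij).mono inter_subset_right inter_subset_right]
    have h2 : ∀ j ∈ range (r + 1), ∑ p ∈ S ∩ blk P (Real.log z) j, Real.log (p : ℝ) ≤
        (b₀ + 1) * Real.log z * (1 / 2 ^ j) + 2 * Real.log z * (j / 2 ^ j) := by
      intro j hj
      have h3 : ∑ p ∈ S ∩ blk P (Real.log z) j, Real.log (p : ℝ) ≤
          (S ∩ blk P (Real.log z) j).card • (Real.log z / 2 ^ j) := by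
        refine sum_le_card_nsmul _ _ _ fun p hp => ?_
        have := (mem_filter.1 (mem_inter.1 hp).2).2.1
        rw [le_div_iff₀ (by positivity), mul_comm]
        exact this.le
      rw [nsmul_eq_mul] at h3
      have h4 : ((S ∩ blk P (Real.log z) j).card : ℝ) ≤ b₀ + 2 * j + 1 := by exact_mod_cast hcard j hj
      have h5 := mul_le_mul_of_nonneg_right h4 (show 0 ≤ Real.log z / 2 ^ j by positivity)
      refine (h3.trans h5).trans (le_of_eq ?_)
      field_simp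
      ring
    refine (sum_le_sum h2).trans ?_
    rw [sum_add_distrib, ← mul_sum, ← mul_sum]
    have h6 := mul_le_mul_of_nonneg_left (half_sum85 (r + 1)) (show 0 ≤ (b₀ + 1) * Real.log z by positivity)
    have h7 := mul_le_mul_of_nonneg_left (half_sum85' (r + 1)) (show 0 ≤ 2 * Real.log z by positivity)
    linarith
  have h8 : (0 : ℝ) < ∏ p ∈ S, (p : ℝ) := prod_pos hpos
  rw [Nat.cast_prod, ← Real.exp_log h8]
  refine (Real.exp_le_exp.2 h1).trans (le_of_eq ?_)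
  rw [mul_comm, Real.exp_mul, Real.exp_log (by linarith)]
  have : ((2 : ℝ) * b₀ + 6) = ((2 * b₀ + 6 : ℕ) : ℝ) := by push_cast; ring
  rw [this, Real.rpow_natCast]

/-- The main term. -/
private theorem main85 {b₀ : ℕ} (hb : Even b₀) (htail : ∀ r : ℕ, ∑ j ∈ range r,
      Ls ^ (b₀ + 2 * j + 1) / ((b₀ + 2 * j + 1).factorial : ℝ) ≤ Real.exp (-(2 * Ls)) / 2)
    {P : Finset ℕ} (hP : ∀ p ∈ P, p.Prime) (Z : ℝ) (r : ℕ) :
    (∏ j ∈ range r, ∏ p ∈ blk P Z j, (1 - 1 / (p : ℝ))) / 2 ≤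
      ∏ j ∈ range r, ms (fun p : ℕ => 1 / (p : ℝ)) (blk P Z j) (b₀ + 2 * j) -
        ∑ j ∈ range r, es (fun p : ℕ => 1 / (p : ℝ)) (blk P Z j) (b₀ + 2 * j + 1) *
          ∏ i ∈ (range r).erase j, ms (fun p : ℕ => 1 / (p : ℝ)) (blk P Z i) (b₀ + 2 * i) := by
  have hw : ∀ j, ∀ p ∈ blk P Z j, (0 : ℝ) ≤ 1 / (p : ℝ) ∧ 1 / (p : ℝ) ≤ 1 := by
    intro j p hp
    have h1 : (1 : ℝ) ≤ p := by exact_mod_cast (hP p (mem_filter.1 hp).1).one_lt.le
    exact ⟨by positivity, by rw [div_le_one (by linarith)]; exact h1⟩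
  obtain ⟨x, hx⟩ : ∃ x : ℕ → ℝ, x = fun j => ∏ p ∈ blk P Z j, (1 - 1 / (p : ℝ)) := ⟨_, rfl⟩
  obtain ⟨m, hm⟩ : ∃ m : ℕ → ℝ, m = fun j => ms (fun p : ℕ => 1 / (p : ℝ)) (blk P Z j) (b₀ + 2 * j) := ⟨_, rfl⟩
  obtain ⟨e, he⟩ : ∃ e : ℕ → ℝ, e = fun j => es (fun p : ℕ => 1 / (p : ℝ)) (blk P Z j) (b₀ + 2 * j + 1) := ⟨_, rfl⟩
  have hxpos : ∀ j, Real.exp (-(2 * Ls)) ≤ x j := by
    intro j
    have hpos : ∀ p ∈ blk P Z j, (0 : ℝ) < 1 - 1 / p := by
      intro p hp
      have h1 : (1 : ℝ) < p := by exact_mod_cast (hP p (mem_filter.1 hp).1).one_lt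
      rw [sub_pos, div_lt_one (by linarith)]
      exact h1
    rw [hx]
    dsimp only
    rw [← Real.exp_log (prod_pos hpos), Real.log_prod (fun p hp => (hpos p hp).ne')]
    refine Real.exp_le_exp.2 ?_
    have h1 := blk_sum_le hP Z j
    have h2 : ∑ p ∈ blk P Z j, -(2 * (1 / (p : ℝ))) ≤ ∑ p ∈ blk P Z j, Real.log (1 - 1 / (p : ℝ)) :=
      sum_le_sum fun p hp => log_one_sub (hP p (mem_filter.1 hp).1)
    rw [sum_neg_distrib, ← mul_sum] at h2
    linarith
  have hexp : 0 < Real.exp (-(2 * Ls)) := Real.exp_pos _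
  have hxm : ∀ j, x j ≤ m j := by
    intro j
    have h1 := (bonf (hw j) (b₀ + 2 * j)).1
    rw [(hb.add (even_two_mul j)).neg_one_pow, one_mul] at h1
    rw [hx, hm]
    dsimp only
    linarith
  have hmpos : ∀ j, 0 < m j := fun j => lt_of_lt_of_le hexp ((hxpos j).trans (hxm j))
  have hele : ∀ j, e j ≤ Ls ^ (b₀ + 2 * j + 1) / ((b₀ + 2 * j + 1).factorial : ℝ) := by
    intro j
    rw [he]
    refine (es_le (fun p hp => (hw j p hp).1) (b₀ + 2 * j + 1)).trans ?_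
    refine div_le_div_of_nonneg_right ?_ (by positivity)
    exact pow_le_pow_left₀ (sum_nonneg fun p hp => (hw j p hp).1) (blk_sum_le hP Z j) _
  have h1 : ∑ j ∈ range r, e j * ∏ i ∈ (range r).erase j, m i ≤ (∏ j ∈ range r, m j) / 2 := by
    have h2 : ∀ j ∈ range r, e j * ∏ i ∈ (range r).erase j, m i ≤
        (∏ j ∈ range r, m j) * Real.exp (2 * Ls) * (Ls ^ (b₀ + 2 * j + 1) / ((b₀ + 2 * j + 1).factorial : ℝ)) := by
      intro j hj
      have h3 : ∏ i ∈ (range r).erase j, m i ≤ (∏ j ∈ range r, m j) * Real.exp (2 * Ls) := by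
        rw [← mul_prod_erase (range r) m hj]
        have h4 : 0 < ∏ i ∈ (range r).erase j, m i := prod_pos fun i _ => hmpos i
        have h5 : 1 ≤ m j * Real.exp (2 * Ls) := by
          have h6 := mul_le_mul_of_nonneg_right ((hxpos j).trans (hxm j)) (Real.exp_pos (2 * Ls)).le
          rwa [← Real.exp_add, neg_add_cancel, Real.exp_zero] at h6
        calc ∏ i ∈ (range r).erase j, m i = 1 * ∏ i ∈ (range r).erase j, m i := (one_mul _).symm
          _ ≤ (m j * Real.exp (2 * Ls)) * ∏ i ∈ (range r).erase j, m i := mul_le_mul_of_nonneg_right h5 h4.le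
          _ = _ := by ring
      have h7 : 0 ≤ ∏ i ∈ (range r).erase j, m i := prod_nonneg fun i _ => (hmpos i).le
      calc e j * ∏ i ∈ (range r).erase j, m i ≤
            (Ls ^ (b₀ + 2 * j + 1) / ((b₀ + 2 * j + 1).factorial : ℝ)) * ∏ i ∈ (range r).erase j, m i :=
            mul_le_mul_of_nonneg_right (hele j) h7
        _ ≤ (Ls ^ (b₀ + 2 * j + 1) / ((b₀ + 2 * j + 1).factorial : ℝ)) * ((∏ j ∈ range r, m j) * Real.exp (2 * Ls)) :=
            mul_le_mul_of_nonneg_left h3 (by have := Ls_pos; positivity)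
        _ = _ := by ring
    refine (sum_le_sum h2).trans ?_
    rw [← mul_sum]
    have h8 : 0 < ∏ j ∈ range r, m j := prod_pos fun i _ => hmpos i
    have h9 := mul_le_mul_of_nonneg_left (htail r) (show 0 ≤ (∏ j ∈ range r, m j) * Real.exp (2 * Ls) by positivity)
    refine h9.trans (le_of_eq ?_)
    have h10 : Real.exp (2 * Ls) * Real.exp (-(2 * Ls)) = 1 := by rw [← Real.exp_add, add_neg_cancel, Real.exp_zero]
    calc (∏ j ∈ range r, m j) * Real.exp (2 * Ls) * (Real.exp (-(2 * Ls)) / 2) =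
          (∏ j ∈ range r, m j) * (Real.exp (2 * Ls) * Real.exp (-(2 * Ls))) / 2 := by ring
      _ = _ := by rw [h10, mul_one]
  have h11 : ∏ j ∈ range r, x j ≤ ∏ j ∈ range r, m j :=
    prod_le_prod (fun j _ => hexp.le.trans (hxpos j)) fun j _ => hxm j
  rw [hx, hm] at h11
  rw [he, hm] at h1
  dsimp only at h11 h1
  linarith

/-- **The lower bound sieve.** -/
theorem lower_sieve : ∃ (s₀ : ℕ) (c : ℝ), 0 < c ∧ ∀ (A : Finset ℤ) (P : Finset ℕ) (X z : ℝ) (E : ℕ → ℝ),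
    0 ≤ X → 2 ≤ z → (∀ p ∈ P, p.Prime ∧ (p : ℝ) < z) →
    (∀ N : ℕ, Squarefree N → N.primeFactors ⊆ P → (N : ℝ) ≤ z ^ s₀ →
      |((A.filter (fun n => (N : ℤ) ∣ n)).card : ℝ) - X / N| ≤ E N) →
    c * X / Real.log z - ∑ N ∈ (Icc 1 ⌊z ^ s₀⌋₊).filter (fun N => Squarefree N ∧ N.primeFactors ⊆ P), E N ≤
      ((A.filter (fun n => ∀ p ∈ P, ¬ (p : ℤ) ∣ n)).card : ℝ) := by
  obtain ⟨b₀, hb, htail⟩ := tail85 (Real.exp (-(2 * Ls)) / 2) (by positivity)
  obtain ⟨c, hc, hprod⟩ := prod_lower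
  refine ⟨2 * b₀ + 6, c / 2, by positivity, fun A P X z E hX hz hP hE => ?_⟩
  have hZ : 0 < Real.log z := Real.log_pos (by linarith)
  have hl2 : 0 < Real.log 2 := Real.log_pos (by norm_num)
  obtain ⟨r, hr⟩ : ∃ r : ℕ, Real.log z ≤ 2 ^ (r + 1) * Real.log 2 := by
    obtain ⟨r, hr⟩ := pow_unbounded_of_one_lt (Real.log z / Real.log 2) (show (1 : ℝ) < 2 by norm_num)
    refine ⟨r, ?_⟩
    rw [div_lt_iff₀ hl2] at hr
    refine hr.le.trans (mul_le_mul_of_nonneg_right ?_ hl2.le)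
    exact pow_le_pow_right₀ (by norm_num) (Nat.le_succ r)
  have hP' : ∀ p ∈ P, p.Prime ∧ Real.log p < Real.log z := fun p hp =>
    ⟨(hP p hp).1, Real.log_lt_log (by exact_mod_cast (hP p hp).1.pos) (hP p hp).2⟩
  have hcov := blk_cover hP' hr
  have hdiv : ∀ (S : Finset ℕ), S ⊆ P → ∀ n : ℤ, ((∏ p ∈ S, p : ℕ) : ℤ) ∣ n ↔ S ⊆ P.filter (fun p => (p : ℤ) ∣ n) := by
    intro S hS n
    constructor
    · intro h p hp
      refine mem_filter.2 ⟨hS hp, ?_⟩
      exact dvd_trans (Int.natCast_dvd_natCast.2 (dvd_prod_of_mem (fun p => p) hp)) h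
    · intro h
      rw [Int.natCast_dvd]
      refine prod_primes_dvd _ (fun p hp => (hP p (hS hp)).1.prime) fun p hp => ?_
      rw [← Int.natCast_dvd]
      exact (mem_filter.1 (h hp)).2
  have hsq : ∀ S : Finset ℕ, S ⊆ P → Squarefree (∏ p ∈ S, p) ∧ (∏ p ∈ S, p).primeFactors = S := by
    intro S hS
    have h1 : ∀ p ∈ S, p.Prime := fun p hp => (hP p (hS hp)).1
    refine ⟨?_, Nat.primeFactors_prod h1⟩
    refine Finset.squarefree_prod_of_pairwise_isCoprime ?_ fun p hp => (h1 p hp).prime.squarefree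
    intro p hp q hq hpq
    exact Nat.coprime_iff_isRelPrime.1 ((Nat.coprime_primes (h1 p hp) (h1 q hq)).2 hpq)
  have hmain := sieve_abs (range (r + 1)) (blk P (Real.log z)) (fun i _ j _ hij => blk_disj P _ hij)
    (fun j => b₀ + 2 * j) (fun j _ => hb.add (even_two_mul j)) A (fun n => P.filter (fun p => (p : ℤ) ∣ n))
    (fun n _ => by rw [hcov]; exact filter_subset _ _) X (fun p : ℕ => 1 / (p : ℝ)) (fun S => E (∏ p ∈ S, p)) (by
      intro S hS hcard
      rw [hcov] at hS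
      have h1 := hE (∏ p ∈ S, p) (hsq S hS).1 (by rw [(hsq S hS).2]; exact hS)
        (level85 (by linarith) hP hcov hS hcard)
      have e1 : A.filter (fun n : ℤ => S ⊆ P.filter (fun p : ℕ => (p : ℤ) ∣ n)) =
          A.filter (fun n => ((∏ p ∈ S, p : ℕ) : ℤ) ∣ n) := filter_congr fun n _ => (hdiv S hS n).symm
      have e2 : ∏ p ∈ S, (1 : ℝ) / (p : ℝ) = 1 / ((∏ p ∈ S, p : ℕ) : ℝ) := by
        rw [prod_div_distrib, prod_const_one, Nat.cast_prod]
      rw [e1, e2, mul_one_div]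
      exact h1)
  rw [hcov] at hmain
  have e3 : A.filter (fun n : ℤ => P.filter (fun p : ℕ => (p : ℤ) ∣ n) = ∅) =
      A.filter (fun n => ∀ p ∈ P, ¬ (p : ℤ) ∣ n) := filter_congr fun n _ => by rw [filter_eq_empty_iff]
  rw [e3] at hmain
  have h2 := main85 hb htail (fun p hp => (hP p hp).1) (Real.log z) (r + 1)
  have e4 : ∏ j ∈ range (r + 1), ∏ p ∈ blk P (Real.log z) j, (1 - 1 / (p : ℝ)) = ∏ p ∈ P, (1 - 1 / (p : ℝ)) := by
    rw [← prod_biUnion fun i _ j _ hij => blk_disj P _ hij, hcov]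
  rw [e4] at h2
  have h3 := hprod P z hz hP
  have h4 : c / 2 * X / Real.log z ≤ X * (∏ j ∈ range (r + 1), ms (fun p : ℕ => 1 / (p : ℝ)) (blk P (Real.log z) j)
      (b₀ + 2 * j) - ∑ j ∈ range (r + 1), es (fun p : ℕ => 1 / (p : ℝ)) (blk P (Real.log z) j) (b₀ + 2 * j + 1) *
          ∏ i ∈ (range (r + 1)).erase j, ms (fun p : ℕ => 1 / (p : ℝ)) (blk P (Real.log z) i) (b₀ + 2 * i)) := by
    have h5 : c / 2 / Real.log z ≤ (∏ p ∈ P, (1 - 1 / (p : ℝ))) / 2 := by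
      rw [div_right_comm]
      exact div_le_div_of_nonneg_right h3 (by norm_num)
    have h6 := mul_le_mul_of_nonneg_left (h5.trans h2) hX
    refine le_trans (le_of_eq ?_) h6
    ring
  refine le_trans (sub_le_sub h4 ?_) hmain
  rw [← sum_image (g := fun S : Finset ℕ => ∏ p ∈ S, p) (f := E)]
  · refine sum_le_sum_of_subset_of_nonneg ?_ ?_
    · intro N hN
      obtain ⟨S, hS, rfl⟩ := mem_image.1 hN
      obtain ⟨hS1, hS2⟩ := mem_filter.1 hS
      have hS3 := mem_powerset.1 hS1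
      refine mem_filter.2 ⟨mem_Icc.2 ⟨?_, Nat.le_floor (level85 (by linarith) hP hcov hS3 hS2)⟩, (hsq S hS3).1, ?_⟩
      · exact prod_pos fun p hp => (hP p (hS3 hp)).1.pos
      · rw [(hsq S hS3).2]; exact hS3
    · intro N hN _
      obtain ⟨h1, h2, h3⟩ := mem_filter.1 hN
      refine (abs_nonneg _).trans (hE N h2 h3 ?_)
      exact (Nat.cast_le.2 (mem_Icc.1 h1).2).trans (Nat.floor_le (by positivity))
  · intro S hS T hT hST
    have h1 := (hsq S (mem_powerset.1 (mem_filter.1 (mem_coe.1 hS)).1)).2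
    have h2 := (hsq T (mem_powerset.1 (mem_filter.1 (mem_coe.1 hT)).1)).2
    have h3 : ∏ p ∈ S, p = ∏ p ∈ T, p := hST
    rw [← h1, ← h2, h3]

end Pool.Agent.Helper85.SV
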