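import Pool.Agent.Helper85.SV.Bonf

/-!
# The sieve of Brun and Hooley: the weights

The set `P` of the primes is divided into blocks `B j`, `j ∈ J`; in the block `j` the sieve is truncated at the even number `b j`.
-/

set_option autoImplicit false

namespace Pool.Agent.Helper85.SV

open Finset

variable {ι : Type*} [DecidableEq ι]

private theorem sum_powerset_union85 {A C : Finset ι} (h : Disjoint A C) (F : Finset ι → ℝ) :
    ∑ S ∈ (A ∪ C).powerset, F S = ∑ T ∈ A.powerset, ∑ U ∈ C.powerset, F (T ∪ U) := by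
  rw [← sum_product']
  refine sum_nbij' (fun S => (S ∩ A, S ∩ C)) (fun q => q.1 ∪ q.2) ?_ ?_ ?_ ?_ ?_
  · intro S _
    exact mem_product.2 ⟨mem_powerset.2 inter_subset_right, mem_powerset.2 inter_subset_right⟩
  · intro q hq
    obtain ⟨h1, h2⟩ := mem_product.1 hq
    exact mem_powerset.2 (union_subset_union (mem_powerset.1 h1) (mem_powerset.1 h2))
  · intro S hS
    change S ∩ A ∪ S ∩ C = S
    rw [← inter_union_distrib_left]
    exact inter_eq_left.2 (mem_powerset.1 hS)
  · rintro ⟨T, U⟩ hq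
    obtain ⟨h1, h2⟩ := mem_product.1 hq
    have h1' : T ⊆ A := mem_powerset.1 h1
    have h2' : U ⊆ C := mem_powerset.1 h2
    refine Prod.ext ?_ ?_
    · change (T ∪ U) ∩ A = T
      rw [union_inter_distrib_right, inter_eq_left.2 h1', disjoint_iff_inter_eq_empty.1 (h.symm.mono_left h2'),
        union_empty]
    · change (T ∪ U) ∩ C = U
      rw [union_inter_distrib_right, inter_eq_left.2 h2', disjoint_iff_inter_eq_empty.1 (h.mono_left h1'),
        empty_union]
  · intro S hS
    change F S = F (S ∩ A ∪ S ∩ C)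
    rw [← inter_union_distrib_left, inter_eq_left.2 (mem_powerset.1 hS)]

/-- Products over the blocks. -/
theorem expand {κ : Type*} [DecidableEq κ] (J : Finset κ) (B : κ → Finset ι)
    (hB : ∀ i ∈ J, ∀ j ∈ J, i ≠ j → Disjoint (B i) (B j)) (f : κ → Finset ι → ℝ) :
    ∑ S ∈ (J.biUnion B).powerset, ∏ j ∈ J, f j (S ∩ B j) = ∏ j ∈ J, ∑ T ∈ (B j).powerset, f j T := by
  induction J using Finset.induction_on with
  | empty => simp
  | insert a J ha ih =>
    have hJ : ∀ i ∈ J, ∀ j ∈ J, i ≠ j → Disjoint (B i) (B j) := fun i hi j hj =>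
      hB i (mem_insert_of_mem hi) j (mem_insert_of_mem hj)
    have haJ : ∀ j ∈ J, Disjoint (B a) (B j) := fun j hj =>
      hB a (mem_insert_self a J) j (mem_insert_of_mem hj) (fun h => ha (h ▸ hj))
    have hd : Disjoint (B a) (J.biUnion B) := by
      rw [disjoint_biUnion_right]
      exact haJ
    rw [biUnion_insert, sum_powerset_union85 hd, prod_insert ha, ← ih hJ, sum_mul]
    refine sum_congr rfl fun T hT => ?_
    rw [mul_sum]
    refine sum_congr rfl fun U hU => ?_
    have hT' : T ⊆ B a := mem_powerset.1 hT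
    have hU' : U ⊆ J.biUnion B := mem_powerset.1 hU
    rw [prod_insert ha]
    congr 1
    · rw [union_inter_distrib_right, inter_eq_left.2 hT',
        disjoint_iff_inter_eq_empty.1 (hd.symm.mono_left hU'), union_empty]
    · refine prod_congr rfl fun j hj => ?_
      rw [union_inter_distrib_right, disjoint_iff_inter_eq_empty.1 ((haJ j hj).mono_left hT'), empty_union]

/-- The truncated Moebius function of a block. -/
noncomputable def gb (b : ℕ) (T : Finset ι) : ℝ := if T.card ≤ b then (-1) ^ T.card else 0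

/-- The indicator of the sets with `b + 1` elements. -/
noncomputable def hb (b : ℕ) (T : Finset ι) : ℝ := if T.card = b + 1 then 1 else 0

/-- The weights of the lower bound sieve. -/
noncomputable def lam {κ : Type*} [DecidableEq κ] (J : Finset κ) (B : κ → Finset ι) (b : κ → ℕ) (S : Finset ι) : ℝ :=
  ∏ j ∈ J, gb (b j) (S ∩ B j) - ∑ j ∈ J, hb (b j) (S ∩ B j) * ∏ i ∈ J.erase j, gb (b i) (S ∩ B i)

omit [DecidableEq ι] in
theorem sum_gb (w : ι → ℝ) (P : Finset ι) (b : ℕ) : ∑ T ∈ P.powerset, gb b T * ∏ p ∈ T, w p = ms w P b := by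
  unfold ms es gb
  have e : ∀ k ∈ range (b + 1), (-1 : ℝ) ^ k * ∑ S ∈ P.powersetCard k, ∏ p ∈ S, w p =
      ∑ T ∈ P.powerset, if T.card = k then (-1) ^ k * ∏ p ∈ T, w p else 0 := by
    intro k _
    rw [mul_sum, powersetCard_eq_filter, sum_filter]
  rw [sum_congr rfl e, sum_comm]
  refine sum_congr rfl fun T _ => ?_
  rw [sum_ite_eq (range (b + 1)) T.card (fun k => (-1 : ℝ) ^ k * ∏ p ∈ T, w p)]
  by_cases h : T.card ≤ b
  · rw [if_pos h, if_pos (mem_range.2 (by omega))]
  · rw [if_neg h, if_neg (fun h' => h (by have := mem_range.1 h'; omega)), zero_mul]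

omit [DecidableEq ι] in
theorem sum_hb (w : ι → ℝ) (P : Finset ι) (b : ℕ) : ∑ T ∈ P.powerset, hb b T * ∏ p ∈ T, w p = es w P (b + 1) := by
  unfold es hb
  rw [powersetCard_eq_filter, sum_filter]
  refine sum_congr rfl fun T _ => ?_
  split_ifs
  · rw [one_mul]
  · rw [zero_mul]

/-- The main term of the sieve. -/
theorem sum_lam {κ : Type*} [DecidableEq κ] (J : Finset κ) (B : κ → Finset ι)
    (hB : ∀ i ∈ J, ∀ j ∈ J, i ≠ j → Disjoint (B i) (B j)) (b : κ → ℕ) (w : ι → ℝ) :
    ∑ S ∈ (J.biUnion B).powerset, lam J B b S * ∏ p ∈ S, w p =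
      ∏ j ∈ J, ms w (B j) (b j) - ∑ j ∈ J, es w (B j) (b j + 1) * ∏ i ∈ J.erase j, ms w (B i) (b i) := by
  have hW : ∀ S ∈ (J.biUnion B).powerset, ∏ p ∈ S, w p = ∏ j ∈ J, ∏ p ∈ S ∩ B j, w p := by
    intro S hS
    have h1 : S = J.biUnion (fun j => S ∩ B j) := by
      rw [← inter_biUnion]
      exact (inter_eq_left.2 (mem_powerset.1 hS)).symm
    nth_rewrite 1 [h1]
    rw [prod_biUnion]
    intro i hi j hj hij
    exact (hB i hi j hj hij).mono inter_subset_right inter_subset_right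
  have e1 : ∀ S ∈ (J.biUnion B).powerset, lam J B b S * ∏ p ∈ S, w p =
      ∏ j ∈ J, (gb (b j) (S ∩ B j) * ∏ p ∈ S ∩ B j, w p) -
        ∑ j ∈ J, ∏ i ∈ J, ((if i = j then hb (b i) (S ∩ B i) else gb (b i) (S ∩ B i)) * ∏ p ∈ S ∩ B i, w p) := by
    intro S hS
    rw [hW S hS, lam, sub_mul, ← prod_mul_distrib, sum_mul]
    congr 1
    refine sum_congr rfl fun j hj => ?_
    rw [prod_mul_distrib, ← mul_prod_erase J (fun i => if i = j then hb (b i) (S ∩ B i) else gb (b i) (S ∩ B i)) hj,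
      if_pos rfl]
    congr 2
    refine prod_congr rfl fun i hi => ?_
    rw [if_neg (ne_of_mem_erase hi)]
  rw [sum_congr rfl e1, sum_sub_distrib, sum_comm]
  congr 1
  · rw [expand J B hB (fun j T => gb (b j) T * ∏ p ∈ T, w p)]
    exact prod_congr rfl fun j _ => sum_gb w (B j) (b j)
  · refine sum_congr rfl fun j hj => ?_
    rw [expand J B hB (fun i T => (if i = j then hb (b i) T else gb (b i) T) * ∏ p ∈ T, w p),
      ← mul_prod_erase J _ hj]
    congr 1
    · rw [← sum_hb w (B j) (b j)]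
      exact sum_congr rfl fun T _ => by rw [if_pos rfl]
    · refine prod_congr rfl fun i hi => ?_
      rw [← sum_gb w (B i) (b i)]
      exact sum_congr rfl fun T _ => by rw [if_neg (ne_of_mem_erase hi)]

omit [DecidableEq ι] in
theorem abs_gb_le (b : ℕ) (T : Finset ι) : |gb b T| ≤ 1 := by
  unfold gb
  split_ifs
  · rw [abs_pow, abs_neg, abs_one, one_pow]
  · rw [abs_zero]; exact zero_le_one

theorem abs_lam_le {κ : Type*} [DecidableEq κ] (J : Finset κ) (B : κ → Finset ι) (b : κ → ℕ) (S : Finset ι) :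
    |lam J B b S| ≤ 1 := by
  have hprod : ∀ I : Finset κ, |∏ j ∈ I, gb (b j) (S ∩ B j)| ≤ 1 := by
    intro I
    rw [abs_prod]
    exact prod_le_one (fun _ _ => abs_nonneg _) (fun j _ => abs_gb_le _ _)
  by_cases h : ∃ j ∈ J, (S ∩ B j).card = b j + 1
  · obtain ⟨j, hj, hcard⟩ := h
    have h1 : ∏ i ∈ J, gb (b i) (S ∩ B i) = 0 := by
      refine prod_eq_zero hj ?_
      unfold gb
      rw [if_neg (by omega)]
    have h2 : ∑ j' ∈ J, hb (b j') (S ∩ B j') * ∏ i ∈ J.erase j', gb (b i) (S ∩ B i) =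
        hb (b j) (S ∩ B j) * ∏ i ∈ J.erase j, gb (b i) (S ∩ B i) := by
      refine sum_eq_single_of_mem j hj fun j' _ hne => ?_
      have : ∏ i ∈ J.erase j', gb (b i) (S ∩ B i) = 0 := by
        refine prod_eq_zero (mem_erase.2 ⟨hne.symm, hj⟩) ?_
        unfold gb
        rw [if_neg (by omega)]
      rw [this, mul_zero]
    rw [lam, h1, h2, zero_sub, abs_neg, abs_mul]
    unfold hb
    rw [if_pos hcard, abs_one, one_mul]
    exact hprod _
  · push Not at h
    have h2 : ∑ j ∈ J, hb (b j) (S ∩ B j) * ∏ i ∈ J.erase j, gb (b i) (S ∩ B i) = 0 := by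
      refine sum_eq_zero fun j hj => ?_
      unfold hb
      rw [if_neg (h j hj), zero_mul]
    rw [lam, h2, sub_zero]
    exact hprod _

theorem card_le_of_lam {κ : Type*} [DecidableEq κ] {J : Finset κ} {B : κ → Finset ι} {b : κ → ℕ} {S : Finset ι}
    (h : lam J B b S ≠ 0) {j : κ} (hj : j ∈ J) : (S ∩ B j).card ≤ b j + 1 := by
  by_contra hcon
  push Not at hcon
  apply h
  have hg : gb (b j) (S ∩ B j) = 0 := by
    unfold gb
    rw [if_neg (by omega)]
  have hh : hb (b j) (S ∩ B j) = 0 := by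
    unfold hb
    rw [if_neg (by omega)]
  rw [lam, prod_eq_zero hj hg, zero_sub, neg_eq_zero]
  refine sum_eq_zero fun i hi => ?_
  by_cases hij : i = j
  · rw [hij, hh, zero_mul]
  · rw [prod_eq_zero (mem_erase.2 ⟨fun h' => hij h'.symm, hj⟩) hg, mul_zero]

/-- The lower bound sieve in abstract form. -/
theorem sieve_abs {κ α : Type*} [DecidableEq κ] (J : Finset κ) (B : κ → Finset ι)
    (hB : ∀ i ∈ J, ∀ j ∈ J, i ≠ j → Disjoint (B i) (B j)) (b : κ → ℕ) (hb : ∀ j ∈ J, Even (b j))
    (A : Finset α) (D : α → Finset ι) (hD : ∀ n ∈ A, D n ⊆ J.biUnion B) (X : ℝ) (w : ι → ℝ) (E : Finset ι → ℝ)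
    (hE : ∀ S ⊆ J.biUnion B, (∀ j ∈ J, (S ∩ B j).card ≤ b j + 1) →
      |((A.filter (fun n => S ⊆ D n)).card : ℝ) - X * ∏ p ∈ S, w p| ≤ E S) :
    X * (∏ j ∈ J, ms w (B j) (b j) - ∑ j ∈ J, es w (B j) (b j + 1) * ∏ i ∈ J.erase j, ms w (B i) (b i)) -
      ∑ S ∈ (J.biUnion B).powerset.filter (fun S => ∀ j ∈ J, (S ∩ B j).card ≤ b j + 1), E S ≤
        ((A.filter (fun n => D n = ∅)).card : ℝ) := by
  classical
  set P := J.biUnion B with hP
  -- one element
  have hone : ∀ n ∈ A, ∑ S ∈ P.powerset, lam J B b S * (if S ⊆ D n then 1 else 0) ≤ if D n = ∅ then 1 else 0 := by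
    intro n hn
    set v : ι → ℝ := fun p => if p ∈ D n then 1 else 0 with hv
    have hv01 : ∀ p, 0 ≤ v p ∧ v p ≤ 1 := by
      intro p
      rw [hv]
      dsimp only
      split_ifs <;> norm_num
    have e1 : ∀ S ∈ P.powerset, lam J B b S * (if S ⊆ D n then (1 : ℝ) else 0) = lam J B b S * ∏ p ∈ S, v p := by
      intro S _
      congr 1
      by_cases h : S ⊆ D n
      · rw [if_pos h, prod_eq_one fun p hp => if_pos (h hp)]
      · rw [if_neg h]
        obtain ⟨p, hp, hp'⟩ := not_subset.1 h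
        exact (prod_eq_zero hp (if_neg hp')).symm
    rw [sum_congr rfl e1, sum_lam J B hB b v]
    have hbf : ∀ j ∈ J, 0 ≤ ms v (B j) (b j) - ∏ p ∈ B j, (1 - v p) ∧
        ms v (B j) (b j) - ∏ p ∈ B j, (1 - v p) ≤ es v (B j) (b j + 1) := by
      intro j hj
      have := bonf (w := v) (P := B j) (fun p _ => hv01 p) (b j)
      rwa [(hb j hj).neg_one_pow, one_mul] at this
    have hx0 : ∀ j, 0 ≤ ∏ p ∈ B j, (1 - v p) := fun j => prod_nonneg fun p _ => by linarith [(hv01 p).2]
    have h2 := prod_ge J (x := fun j => ∏ p ∈ B j, (1 - v p)) (y := fun j => ms v (B j) (b j))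
      (fun j hj => ⟨hx0 j, by linarith [(hbf j hj).1]⟩)
    have h3 : ∑ j ∈ J, (ms v (B j) (b j) - ∏ p ∈ B j, (1 - v p)) * ∏ i ∈ J.erase j, ms v (B i) (b i) ≤
        ∑ j ∈ J, es v (B j) (b j + 1) * ∏ i ∈ J.erase j, ms v (B i) (b i) := by
      refine sum_le_sum fun j hj => mul_le_mul_of_nonneg_right (hbf j hj).2 (prod_nonneg fun i hi => ?_)
      have := hbf i (mem_of_mem_erase hi)
      linarith [this.1, hx0 i]
    have h4 : ∏ j ∈ J, ∏ p ∈ B j, (1 - v p) ≤ if D n = ∅ then (1 : ℝ) else 0 := by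
      by_cases h : D n = ∅
      · rw [if_pos h]
        exact prod_le_one (fun j _ => hx0 j) fun j _ => prod_le_one (fun p _ => by linarith [(hv01 p).2])
          (fun p _ => by linarith [(hv01 p).1])
      · rw [if_neg h]
        obtain ⟨p, hp⟩ := nonempty_iff_ne_empty.2 h
        obtain ⟨j, hj, hpj⟩ := mem_biUnion.1 (hD n hn hp)
        refine le_of_eq (prod_eq_zero hj (prod_eq_zero hpj ?_))
        rw [hv]
        dsimp only
        rw [if_pos hp, sub_self]
    linarith
  -- summation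
  have hsum : ∑ S ∈ P.powerset, lam J B b S * ((A.filter (fun n => S ⊆ D n)).card : ℝ) ≤
      ((A.filter (fun n => D n = ∅)).card : ℝ) := by
    have e1 : ∀ S ∈ P.powerset, lam J B b S * ((A.filter (fun n => S ⊆ D n)).card : ℝ) =
        ∑ n ∈ A, lam J B b S * (if S ⊆ D n then 1 else 0) := by
      intro S _
      rw [← mul_sum, sum_boole]
    rw [sum_congr rfl e1, sum_comm]
    refine (sum_le_sum hone).trans (le_of_eq ?_)
    rw [sum_boole]
  have hmain : X * ∑ S ∈ P.powerset, lam J B b S * ∏ p ∈ S, w p -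
      ∑ S ∈ P.powerset.filter (fun S => ∀ j ∈ J, (S ∩ B j).card ≤ b j + 1), E S ≤
      ∑ S ∈ P.powerset, lam J B b S * ((A.filter (fun n => S ⊆ D n)).card : ℝ) := by
    rw [sub_le_iff_le_add, mul_sum, sum_filter, ← sum_add_distrib]
    refine sum_le_sum fun S hS => ?_
    by_cases h0 : lam J B b S = 0
    · rw [h0, zero_mul, zero_mul, mul_zero, zero_add]
      split_ifs with h
      · exact (abs_nonneg _).trans (hE S (mem_powerset.1 hS) h)
      · exact le_refl _
    · have hs : ∀ j ∈ J, (S ∩ B j).card ≤ b j + 1 := fun j hj => card_le_of_lam h0 hj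
      rw [if_pos hs]
      have h1 := hE S (mem_powerset.1 hS) hs
      have h2 := abs_lam_le J B b S
      have h3 : |lam J B b S * (((A.filter (fun n => S ⊆ D n)).card : ℝ) - X * ∏ p ∈ S, w p)| ≤ E S := by
        rw [abs_mul]
        calc |lam J B b S| * |((A.filter (fun n => S ⊆ D n)).card : ℝ) - X * ∏ p ∈ S, w p| ≤
              1 * |((A.filter (fun n => S ⊆ D n)).card : ℝ) - X * ∏ p ∈ S, w p| :=
              mul_le_mul_of_nonneg_right h2 (abs_nonneg _)
          _ ≤ E S := by rw [one_mul]; exact h1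
      have h4 := (abs_le.1 h3).1
      have e : X * (lam J B b S * ∏ p ∈ S, w p) = lam J B b S * (X * ∏ p ∈ S, w p) := by ring
      rw [e]
      have e2 : lam J B b S * (((A.filter (fun n => S ⊆ D n)).card : ℝ) - X * ∏ p ∈ S, w p) =
          lam J B b S * ((A.filter (fun n => S ⊆ D n)).card : ℝ) - lam J B b S * (X * ∏ p ∈ S, w p) := by ring
      rw [e2] at h4
      linarith
  rw [sum_lam J B hB b w] at hmain
  exact hmain.trans hsum

end Pool.Agent.Helper85.SV
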