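import Mathlib

/-!
# The sieve of Brun and Hooley: Bonferroni inequalities

`es w P k` is the elementary symmetric function of degree `k` of the weights `w p`, `p ∈ P`, and `ms w P b` the alternating
sum of those of degree at most `b`.
-/

set_option autoImplicit false

namespace Pool.Agent.Helper85.SV

open Finset

variable {ι : Type*} [DecidableEq ι]

/-- The elementary symmetric functions of the weights. -/
noncomputable def es (w : ι → ℝ) (P : Finset ι) (k : ℕ) : ℝ := ∑ S ∈ P.powersetCard k, ∏ p ∈ S, w p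

/-- The truncated alternating sum. -/
noncomputable def ms (w : ι → ℝ) (P : Finset ι) (b : ℕ) : ℝ := ∑ k ∈ range (b + 1), (-1) ^ k * es w P k

omit [DecidableEq ι] in
theorem es_zero (w : ι → ℝ) (P : Finset ι) : es w P 0 = 1 := by
  simp [es]

omit [DecidableEq ι] in
theorem es_empty (w : ι → ℝ) (k : ℕ) : es w ∅ (k + 1) = 0 := by
  unfold es
  rw [powersetCard_eq_empty.2 (by simp)]
  rfl

theorem es_succ_insert (w : ι → ℝ) {P : Finset ι} {a : ι} (h : a ∉ P) (k : ℕ) :
    es w (insert a P) (k + 1) = es w P (k + 1) + w a * es w P k := by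
  unfold es
  rw [powersetCard_succ_insert h, sum_union, mul_sum]
  · congr 1
    rw [sum_image]
    · refine sum_congr rfl fun S hS => ?_
      rw [prod_insert]
      intro ha
      exact h ((mem_powersetCard.1 hS).1 ha)
    · intro S hS T hT hST
      have h1 : a ∉ S := fun ha => h ((mem_powersetCard.1 (mem_coe.1 hS)).1 ha)
      have h2 : a ∉ T := fun ha => h ((mem_powersetCard.1 (mem_coe.1 hT)).1 ha)
      rw [← erase_insert h1, ← erase_insert h2]
      exact congrArg (fun U => U.erase a) hST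
  · rw [disjoint_left]
    intro S hS hS'
    obtain ⟨T, hT, rfl⟩ := mem_image.1 hS'
    exact h ((mem_powersetCard.1 hS).1 (mem_insert_self a T))

omit [DecidableEq ι] in
theorem es_nonneg {w : ι → ℝ} {P : Finset ι} (hw : ∀ p ∈ P, 0 ≤ w p) (k : ℕ) : 0 ≤ es w P k :=
  sum_nonneg fun _ hS => prod_nonneg fun p hp => hw p ((mem_powersetCard.1 hS).1 hp)

omit [DecidableEq ι] in
theorem ms_zero (w : ι → ℝ) (P : Finset ι) : ms w P 0 = 1 := by
  simp [ms, es_zero]

omit [DecidableEq ι] in
theorem ms_empty (w : ι → ℝ) (b : ℕ) : ms w ∅ b = 1 := by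
  unfold ms
  rw [sum_range_succ', es_zero]
  rw [sum_eq_zero fun k _ => by rw [es_empty, mul_zero]]
  norm_num

theorem ms_succ_insert (w : ι → ℝ) {P : Finset ι} {a : ι} (h : a ∉ P) (b : ℕ) :
    ms w (insert a P) (b + 1) = ms w P (b + 1) - w a * ms w P b := by
  unfold ms
  rw [sum_range_succ', sum_range_succ' (fun k => (-1 : ℝ) ^ k * es w P k) (b + 1), es_zero, es_zero, mul_sum]
  have e : ∑ k ∈ range (b + 1), (-1 : ℝ) ^ (k + 1) * es w (insert a P) (k + 1) =
      ∑ k ∈ range (b + 1), (-1 : ℝ) ^ (k + 1) * es w P (k + 1) -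
        ∑ k ∈ range (b + 1), w a * ((-1 : ℝ) ^ k * es w P k) := by
    rw [← sum_sub_distrib]
    refine sum_congr rfl fun k _ => ?_
    rw [es_succ_insert w h, pow_succ]
    ring
  rw [e]
  ring

/-- **The Bonferroni inequalities.** -/
theorem bonf {w : ι → ℝ} {P : Finset ι} (hw : ∀ p ∈ P, 0 ≤ w p ∧ w p ≤ 1) (b : ℕ) :
    0 ≤ (-1) ^ b * (ms w P b - ∏ p ∈ P, (1 - w p)) ∧
      (-1) ^ b * (ms w P b - ∏ p ∈ P, (1 - w p)) ≤ es w P (b + 1) := by
  induction P using Finset.induction_on generalizing b with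
  | empty => simp [ms_empty, es_empty]
  | insert a P ha ih =>
    have hP : ∀ p ∈ P, 0 ≤ w p ∧ w p ≤ 1 := fun p hp => hw p (mem_insert_of_mem hp)
    obtain ⟨ha0, ha1⟩ := hw a (mem_insert_self a P)
    have h0 : 0 ≤ ∏ p ∈ P, (1 - w p) := prod_nonneg fun p hp => by linarith [(hP p hp).2]
    have h1 : ∏ p ∈ P, (1 - w p) ≤ 1 := prod_le_one (fun p hp => by linarith [(hP p hp).2])
      (fun p hp => by linarith [(hP p hp).1])
    rw [prod_insert ha]
    cases b with
    | zero =>
      obtain ⟨i1, i2⟩ := ih hP 0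
      rw [ms_zero, pow_zero, one_mul] at i1 i2 ⊢
      rw [es_succ_insert w ha, es_zero]
      constructor
      · nlinarith
      · nlinarith
    | succ b =>
      obtain ⟨i1, i2⟩ := ih hP (b + 1)
      obtain ⟨j1, j2⟩ := ih hP b
      rw [ms_succ_insert w ha, es_succ_insert w ha]
      have e : (-1 : ℝ) ^ (b + 1) * (ms w P (b + 1) - w a * ms w P b - (1 - w a) * ∏ p ∈ P, (1 - w p)) =
          (-1) ^ (b + 1) * (ms w P (b + 1) - ∏ p ∈ P, (1 - w p)) +
            w a * ((-1) ^ b * (ms w P b - ∏ p ∈ P, (1 - w p))) := by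
        rw [pow_succ]
        ring
      rw [e]
      constructor
      · have := mul_nonneg ha0 j1
        linarith
      · have := mul_le_mul_of_nonneg_left j2 ha0
        linarith

private theorem bern85 {L w : ℝ} (hL : 0 ≤ L) (hw : 0 ≤ w) (k : ℕ) :
    L ^ (k + 1) + (k + 1) * w * L ^ k ≤ (L + w) ^ (k + 1) := by
  induction k with
  | zero => simp
  | succ k ih =>
    have h1 : (L + w) * (L ^ (k + 1) + (k + 1) * w * L ^ k) ≤ (L + w) * (L + w) ^ (k + 1) :=
      mul_le_mul_of_nonneg_left ih (by linarith)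
    have h2 : 0 ≤ (k + 1) * w * (w * L ^ k) := by positivity
    have e1 : (L + w) * (L ^ (k + 1) + (k + 1) * w * L ^ k) =
        L ^ (k + 1 + 1) + ((k + 1 : ℕ) + 1) * w * L ^ (k + 1) + (k + 1) * w * (w * L ^ k) := by
      push_cast
      ring
    have e2 : (L + w) * (L + w) ^ (k + 1) = (L + w) ^ (k + 1 + 1) := by ring
    rw [e1, e2] at h1
    linarith

theorem es_le {w : ι → ℝ} {P : Finset ι} (hw : ∀ p ∈ P, 0 ≤ w p) (k : ℕ) :
    es w P k ≤ (∑ p ∈ P, w p) ^ k / k.factorial := by
  induction P using Finset.induction_on generalizing k with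
  | empty =>
    cases k with
    | zero => simp [es_zero]
    | succ k => simp [es_empty]
  | insert a P ha ih =>
    have hP : ∀ p ∈ P, 0 ≤ w p := fun p hp => hw p (mem_insert_of_mem hp)
    have ha0 := hw a (mem_insert_self a P)
    have hL : 0 ≤ ∑ p ∈ P, w p := sum_nonneg hP
    cases k with
    | zero => simp [es_zero]
    | succ k =>
      rw [es_succ_insert w ha, sum_insert ha]
      have i1 := ih hP (k + 1)
      have i2 := mul_le_mul_of_nonneg_left (ih hP k) ha0
      have hf : (0 : ℝ) < (k + 1).factorial := by exact_mod_cast (k + 1).factorial_pos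
      have hf' : (0 : ℝ) < k.factorial := by exact_mod_cast k.factorial_pos
      have h3 := bern85 hL ha0 k
      have e : (∑ p ∈ P, w p) ^ (k + 1) / ((k + 1).factorial : ℝ) + w a * ((∑ p ∈ P, w p) ^ k / (k.factorial : ℝ)) =
          ((∑ p ∈ P, w p) ^ (k + 1) + (k + 1) * w a * (∑ p ∈ P, w p) ^ k) / ((k + 1).factorial : ℝ) := by
        have : ((k + 1).factorial : ℝ) = (k + 1) * k.factorial := by
          rw [Nat.factorial_succ]; push_cast; ring
        rw [this]
        field_simp
      calc es w P (k + 1) + w a * es w P k ≤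
            (∑ p ∈ P, w p) ^ (k + 1) / ((k + 1).factorial : ℝ) + w a * ((∑ p ∈ P, w p) ^ k / (k.factorial : ℝ)) := by
            linarith
        _ = _ := e
        _ ≤ _ := by
            refine div_le_div_of_nonneg_right ?_ hf.le
            rw [add_comm (w a)]
            exact h3

/-- A lower bound for a product. -/
theorem prod_ge {κ : Type*} [DecidableEq κ] (J : Finset κ) {x y : κ → ℝ} (h : ∀ j ∈ J, 0 ≤ x j ∧ x j ≤ y j) :
    ∏ j ∈ J, y j - ∑ j ∈ J, (y j - x j) * ∏ i ∈ J.erase j, y i ≤ ∏ j ∈ J, x j := by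
  induction J using Finset.induction_on with
  | empty => simp
  | insert a J ha ih =>
    have hJ : ∀ j ∈ J, 0 ≤ x j ∧ x j ≤ y j := fun j hj => h j (mem_insert_of_mem hj)
    obtain ⟨h0, h1⟩ := h a (mem_insert_self a J)
    rw [prod_insert ha, prod_insert ha, sum_insert ha, erase_insert ha]
    have e : ∑ j ∈ J, (y j - x j) * ∏ i ∈ (insert a J).erase j, y i =
        y a * ∑ j ∈ J, (y j - x j) * ∏ i ∈ J.erase j, y i := by
      rw [mul_sum]
      refine sum_congr rfl fun j hj => ?_
      have hja : a ≠ j := fun h' => ha (h' ▸ hj)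
      rw [erase_insert_of_ne hja, prod_insert (fun h' => ha (mem_of_mem_erase h'))]
      ring
    rw [e]
    have hS : 0 ≤ ∑ j ∈ J, (y j - x j) * ∏ i ∈ J.erase j, y i := by
      refine sum_nonneg fun j hj => mul_nonneg (by linarith [(hJ j hj).2]) (prod_nonneg fun i hi => ?_)
      have := hJ i (mem_of_mem_erase hi)
      linarith [this.1, this.2]
    have i1 := mul_le_mul_of_nonneg_left (ih hJ) h0
    have i2 : x a * ∑ j ∈ J, (y j - x j) * ∏ i ∈ J.erase j, y i ≤
        y a * ∑ j ∈ J, (y j - x j) * ∏ i ∈ J.erase j, y i := mul_le_mul_of_nonneg_right h1 hS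
    nlinarith

end Pool.Agent.Helper85.SV
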